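import Pool.Agent.W252.BWFinal
import Pool.Agent.H340R2.LW

/-!
# Complex conjugation and the theorem of Brownawell and Waldschmidt
-/

set_option autoImplicit false

namespace P426.TC

open Complex

/-- `z` is algebraic over the field `ℚ(t)`. -/
abbrev Over (t z : ℂ) : Prop := IsAlgebraic (IntermediateField.adjoin ℚ {t}) z

/-- elements of `ℚ(t)`, `t` real, are real -/
theorem conj_adjoin (t : ℝ) {x : ℂ} (hx : x ∈ IntermediateField.adjoin ℚ {(t : ℂ)}) :
    (starRingEnd ℂ) x = x := by
  let f : ℝ →ₐ[ℚ] ℂ := RingHom.toRatAlgHom Complex.ofRealHom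
  have hle : IntermediateField.adjoin ℚ {(t : ℂ)} ≤ f.fieldRange := by
    rw [IntermediateField.adjoin_le_iff]
    rintro y hy
    rw [Set.mem_singleton_iff] at hy
    subst hy
    exact ⟨t, rfl⟩
  obtain ⟨r, hr⟩ := hle hx
  have : x = (r : ℂ) := hr.symm
  rw [this, Complex.conj_ofReal]

/-- conjugation as an algebra map over `ℚ(t)` -/
noncomputable def conjA (t : ℝ) :
    ℂ →ₐ[IntermediateField.adjoin ℚ {(t : ℂ)}] ℂ :=
  { (starRingEnd ℂ) with
    commutes' := fun x => conj_adjoin t x.2 }

theorem over_conj (t : ℝ) {z : ℂ} (hz : Over t z) : Over t ((starRingEnd ℂ) z) :=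
  hz.algHom (conjA t)

theorem alg_conj {z : ℂ} (hz : IsAlgebraic ℚ z) : IsAlgebraic ℚ ((starRingEnd ℂ) z) :=
  hz.algHom (RingHom.toRatAlgHom (starRingEnd ℂ))

theorem over_of_alg (t : ℂ) {z : ℂ} (hz : IsAlgebraic ℚ z) : Over t z :=
  hz.tower_top _

theorem over_self (t : ℂ) : Over t t :=
  isAlgebraic_algebraMap (⟨t, IntermediateField.mem_adjoin_simple_self ℚ t⟩ :
    IntermediateField.adjoin ℚ {t})

theorem over_rat (t : ℂ) (q : ℚ) : Over t (q : ℂ) :=
  over_of_alg t (by simpa using isAlgebraic_algebraMap (R := ℚ) (A := ℂ) q)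

theorem alg_exp_rat {z : ℂ} (hz : IsAlgebraic ℚ (Complex.exp z)) (q : ℚ) :
    IsAlgebraic ℚ (Complex.exp (q * z)) := by
  have hd : 0 < q.den := q.den_pos
  refine IsAlgebraic.of_pow hd ?_
  rw [← Complex.exp_nat_mul]
  have h1 : ((q.den : ℕ) : ℂ) * ((q : ℂ) * z) = (q.num : ℂ) * z := by
    rw [← mul_assoc]
    congr 1
    have := Rat.den_mul_eq_num q
    exact_mod_cast congrArg (fun x : ℚ => (x : ℂ)) this
  rw [h1, Complex.exp_int_mul]
  obtain ⟨n, hn | hn⟩ := Int.eq_nat_or_neg q.num
  · rw [hn, zpow_natCast]; exact hz.pow n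
  · rw [hn, zpow_neg, zpow_natCast]; exact (hz.pow n).inv

theorem pair_indep {a b : ℂ} (ha : a ≠ 0) (h : ¬ ∃ r : ℚ, b = r * a) :
    LinearIndependent ℚ ![a, b] := by
  rw [LinearIndependent.pair_iff]
  intro s t hst
  have ht : t = 0 := by
    by_contra ht
    apply h
    refine ⟨-(s / t), ?_⟩
    have ht' : (t : ℂ) ≠ 0 := by exact_mod_cast ht
    rw [Rat.smul_def, Rat.smul_def] at hst
    push_cast
    field_simp
    linear_combination hst
  subst ht
  refine ⟨?_, rfl⟩
  rw [zero_smul, add_zero, Rat.smul_def, mul_eq_zero] at hst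
  rcases hst with h1 | h1
  · exact_mod_cast h1
  · exact absurd h1 ha

/-- A singular `2 × 2` matrix over the algebraic closure of `ℚ(t)`, whose first column
consists of logarithms of algebraic numbers and whose second column consists of logarithms
of elements of that field, is degenerate. -/
theorem core {t : ℂ} (ht : Transcendental ℚ t) {a b c d : ℂ} (ha : a ≠ 0)
    (hdet : a * d = b * c) (oa : Over t a) (ob : Over t b) (oc : Over t c)
    (ea : IsAlgebraic ℚ (Complex.exp a)) (ec : IsAlgebraic ℚ (Complex.exp c))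
    (eb : Over t (Complex.exp b)) (ed : Over t (Complex.exp d)) :
    (∃ r : ℚ, c = r * a) ∨ (∃ r : ℚ, b = r * a) := by
  by_contra hcon
  push Not at hcon
  obtain ⟨h1, h2⟩ := hcon
  have hx : LinearIndependent ℚ ![(1 : ℂ), c / a] := by
    refine pair_indep one_ne_zero ?_
    rintro ⟨r, hr⟩
    refine h1 r ?_
    rw [mul_one, div_eq_iff ha] at hr
    exact hr
  have hy : LinearIndependent ℚ ![a, b] := by
    refine pair_indep ha ?_
    rintro ⟨r, hr⟩
    exact h2 r hr
  refine Pool.Agent.W252.bw ht ![(1 : ℂ), c / a] ![a, b] hx hy ?_ ?_ ?_ ?_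
  · intro i
    fin_cases i
    · exact isAlgebraic_one
    · exact oc.mul oa.inv
  · intro i
    fin_cases i
    · exact oa
    · exact ob
  · intro i
    fin_cases i
    · simpa using ea
    · have : c / a * a = c := div_mul_cancel₀ c ha
      simpa [this] using ec
  · intro i
    fin_cases i
    · simpa using eb
    · have : c / a * b = d := by
        field_simp
        linear_combination -hdet
      simpa [this] using ed

end P426.TC
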