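import Pool.Agent.TH426.TC.Core

/-!
# Points of a circle at which the exponential function is algebraic
-/

set_option autoImplicit false

namespace P426.TC

open Complex

theorem mul_conj_norm (z : ℂ) : z * (starRingEnd ℂ) z = ((‖z‖ ^ 2 : ℝ) : ℂ) := by
  rw [Complex.mul_conj, Complex.normSq_eq_norm_sq]

theorem trans_cast {t : ℝ} (ht : Transcendental ℚ t) : Transcendental ℚ (t : ℂ) := by
  rw [Transcendental] at ht ⊢
  intro h
  exact ht ((isAlgebraic_algebraMap_iff (algebraMap ℝ ℂ).injective).1 h)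

/-- two points of proportional norms -/
theorem pair {t : ℝ} (ht : Transcendental ℚ t) {z w : ℂ} (hz0 : z ≠ 0)
    (oz : Over t z) (ow : Over t w)
    (ez : IsAlgebraic ℚ (Complex.exp z)) (ew : IsAlgebraic ℚ (Complex.exp w))
    {q : ℚ} (hq : ‖w‖ ^ 2 = q * ‖z‖ ^ 2) :
    (∃ r : ℚ, w = r * z) ∨ (∃ r : ℚ, w = r * (starRingEnd ℂ) z) := by
  have hdet : z * ((q : ℂ) * (starRingEnd ℂ) z) = w * (starRingEnd ℂ) w := by
    have h1 : z * ((q : ℂ) * (starRingEnd ℂ) z) = (q : ℂ) * (z * (starRingEnd ℂ) z) := by ring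
    rw [h1, mul_conj_norm, mul_conj_norm, hq]
    push_cast
    ring
  have ecw : IsAlgebraic ℚ (Complex.exp ((starRingEnd ℂ) w)) := by
    rw [Complex.exp_conj] ; exact alg_conj ew
  have ecz : IsAlgebraic ℚ (Complex.exp ((starRingEnd ℂ) z)) := by
    rw [Complex.exp_conj] ; exact alg_conj ez
  rcases core (trans_cast ht) hz0 hdet oz ow (over_conj t ow) ez ecw (over_of_alg _ ew)
    (over_of_alg _ (alg_exp_rat ecz q)) with ⟨r, hr⟩ | ⟨r, hr⟩
  · right
    refine ⟨r, ?_⟩
    have := congrArg (starRingEnd ℂ) hr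
    simpa using this
  · left
    exact ⟨r, hr⟩

/-- a line through the origin off the axes -/
theorem line {t : ℝ} (ht : Transcendental ℚ t) {z : ℂ} (hre : z.re ≠ 0) (him : z.im ≠ 0)
    (oz : Over t z) (ez : IsAlgebraic ℚ (Complex.exp z)) (x : ℝ) (ox : Over t ((x : ℂ) * z))
    (ex : Over t (Complex.exp ((x : ℂ) * z))) : ∃ r : ℚ, x = r := by
  have hz0 : z ≠ 0 := fun h => hre (by rw [h]; rfl)
  have hdet : z * ((x : ℂ) * (starRingEnd ℂ) z) = ((x : ℂ) * z) * (starRingEnd ℂ) z := by ring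
  have ecz : IsAlgebraic ℚ (Complex.exp ((starRingEnd ℂ) z)) := by
    rw [Complex.exp_conj] ; exact alg_conj ez
  have ecx : Over t (Complex.exp ((x : ℂ) * (starRingEnd ℂ) z)) := by
    have h1 : (x : ℂ) * (starRingEnd ℂ) z = (starRingEnd ℂ) ((x : ℂ) * z) := by
      rw [map_mul, Complex.conj_ofReal]
    rw [h1, Complex.exp_conj]
    exact over_conj t ex
  rcases core (trans_cast ht) hz0 hdet oz ox (over_conj t oz) ez ecz ex ecx with ⟨r, hr⟩ | ⟨r, hr⟩
  · exfalso
    have h1 := congrArg Complex.re hr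
    have h2 := congrArg Complex.im hr
    have h3 : ((r : ℂ) * z).re = r * z.re := by
      have := Complex.re_ofReal_mul (r : ℝ) z
      simpa using this
    have h4 : ((r : ℂ) * z).im = r * z.im := by
      have := Complex.im_ofReal_mul (r : ℝ) z
      simpa using this
    rw [h3, Complex.conj_re] at h1
    rw [h4, Complex.conj_im] at h2
    have h5 : (r : ℝ) = 1 := by
      have : (r : ℝ) * z.re = 1 * z.re := by rw [one_mul]; exact h1.symm
      exact mul_right_cancel₀ hre this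
    rw [h5, one_mul] at h2
    apply him
    linarith
  · refine ⟨r, ?_⟩
    have : (x : ℂ) = (r : ℂ) := mul_right_cancel₀ hz0 hr
    have h2 : ((x : ℝ) : ℂ) = (((r : ℚ) : ℝ) : ℂ) := by rw [this]; norm_cast
    exact_mod_cast h2

theorem rat_abs_one {r : ℚ} {z w : ℂ} (hz : z ≠ 0) (h : w = r * z) (hn : ‖w‖ = ‖z‖) :
    w = z ∨ w = -z := by
  have h1 : ‖w‖ = |(r : ℝ)| * ‖z‖ := by
    rw [h, norm_mul]
    congr 1
    have : ((r : ℚ) : ℂ) = (((r : ℚ) : ℝ) : ℂ) := by norm_cast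
    rw [this, Complex.norm_real, Real.norm_eq_abs]
  have hz' : 0 < ‖z‖ := norm_pos_iff.2 hz
  have h2 : |(r : ℝ)| = 1 := by
    have : |(r : ℝ)| * ‖z‖ = 1 * ‖z‖ := by rw [← h1, hn, one_mul]
    exact mul_right_cancel₀ hz'.ne' this
  rcases eq_or_eq_neg_of_abs_eq h2 with h3 | h3
  · left
    have : r = 1 := by exact_mod_cast h3
    rw [h, this]; simp
  · right
    have : r = -1 := by exact_mod_cast h3
    rw [h, this]; simp

/-- the points of a circle -/
theorem circle {t : ℝ} (ht : Transcendental ℚ t) {z w : ℂ} (hz0 : z ≠ 0)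
    (oz : Over t z) (ow : Over t w)
    (ez : IsAlgebraic ℚ (Complex.exp z)) (ew : IsAlgebraic ℚ (Complex.exp w))
    (hn : ‖w‖ = ‖z‖) :
    w = z ∨ w = -z ∨ w = (starRingEnd ℂ) z ∨ w = -(starRingEnd ℂ) z := by
  rcases pair (q := 1) ht hz0 oz ow ez ew (by rw [hn]; simp) with ⟨r, hr⟩ | ⟨r, hr⟩
  · rcases rat_abs_one hz0 hr hn with h | h
    · exact Or.inl h
    · exact Or.inr (Or.inl h)
  · rcases rat_abs_one ((map_ne_zero _).2 hz0) hr (by rw [hn, Complex.norm_conj]) with h | h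
    · exact Or.inr (Or.inr (Or.inl h))
    · exact Or.inr (Or.inr (Or.inr h))

end P426.TC
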