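import Pool.Agent.TH426.TC.Main
import Pool.Agent.W242.GG.Count

/-!
# Circles of algebraic radius, powers of one number, numbers related to `π`
-/

set_option autoImplicit false

namespace P426.TC

open Complex

/-- transitivity -/
theorem over_trans {t : ℂ} {F : IntermediateField ℚ ℂ} (h : ∀ x ∈ F, Over t x) {y : ℂ}
    (hy : IsAlgebraic F y) : Over t y := by
  obtain ⟨p, hp0, hp⟩ := hy
  let A := algebraicClosure (IntermediateField.adjoin ℚ {t}) ℂ
  have hmem : ∀ x : F, (x : ℂ) ∈ A := fun x => mem_algebraicClosure_iff.2 (h x x.2)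
  let f : F →+* A :=
    { toFun := fun x => ⟨(x : ℂ), hmem x⟩
      map_one' := rfl
      map_mul' := fun _ _ => rfl
      map_zero' := rfl
      map_add' := fun _ _ => rfl }
  have h1 : IsAlgebraic A y := by
    refine ⟨p.map f, (Polynomial.map_ne_zero_iff f.injective).2 hp0, ?_⟩
    rw [Polynomial.aeval_def, Polynomial.eval₂_map]
    exact hp
  exact h1.restrictScalars (IntermediateField.adjoin ℚ {t})

theorem over_adjoin {t u : ℂ} (hu : Over t u) {x : ℂ} (hx : x ∈ IntermediateField.adjoin ℚ {u}) :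
    Over t x := by
  induction hx using IntermediateField.adjoin_induction with
  | mem x hx =>
    rw [Set.mem_singleton_iff.1 hx]; exact hu
  | algebraMap q => exact over_of_alg t (isAlgebraic_algebraMap q)
  | add x y _ _ hx hy => exact hx.add hy
  | inv x _ hx => exact hx.inv
  | mul x y _ _ hx hy => exact hx.mul hy

theorem over_over {t u v : ℂ} (hu : Over t u) (hv : Over u v) : Over t v :=
  over_trans (fun _ hx => over_adjoin hu hx) hv

theorem over_I (t : ℂ) : Over t I := over_of_alg t Pool.Agent.H340R2.LW.isAlgebraic_I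

theorem re_add_im_sq (u : ℂ) : (u.re : ℂ) ^ 2 + (u.im : ℂ) ^ 2 = ((‖u‖ ^ 2 : ℝ) : ℂ) := by
  rw [← mul_conj_norm]
  apply Complex.ext <;> simp [pow_two] <;> ring

/-- a complex number of algebraic modulus is algebraic over its real part -/
theorem over_re {u : ℂ} (hR : IsAlgebraic ℚ ((‖u‖ ^ 2 : ℝ) : ℂ)) : Over (u.re : ℂ) u := by
  have h1 : Over (u.re : ℂ) ((u.im : ℂ) ^ 2) := by
    have : (u.im : ℂ) ^ 2 = ((‖u‖ ^ 2 : ℝ) : ℂ) - (u.re : ℂ) ^ 2 := by
      rw [← re_add_im_sq u]; ring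
    rw [this]
    exact (over_of_alg _ hR).sub ((over_self _).pow 2)
  have h2 : Over (u.re : ℂ) (u.im : ℂ) := IsAlgebraic.of_pow (by norm_num) h1
  have h3 : u = (u.re : ℂ) + (u.im : ℂ) * I := (Complex.re_add_im u).symm
  rw [h3]
  have h4 : (((u.re : ℂ) + (u.im : ℂ) * I).re : ℂ) = (u.re : ℂ) := by simp
  rw [h4]
  exact (over_self _).add (h2.mul (over_I _))

theorem alg_of_re {u : ℂ} (hR : IsAlgebraic ℚ ((‖u‖ ^ 2 : ℝ) : ℂ))
    (hre : IsAlgebraic ℚ (u.re : ℂ)) : IsAlgebraic ℚ u := by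
  have h1 : IsAlgebraic ℚ ((u.im : ℂ) ^ 2) := by
    have : (u.im : ℂ) ^ 2 = ((‖u‖ ^ 2 : ℝ) : ℂ) - (u.re : ℂ) ^ 2 := by
      rw [← re_add_im_sq u]; ring
    rw [this]
    exact hR.sub (hre.pow 2)
  have h2 : IsAlgebraic ℚ (u.im : ℂ) := IsAlgebraic.of_pow (by norm_num) h1
  have h3 : u = (u.re : ℂ) + (u.im : ℂ) * I := (Complex.re_add_im u).symm
  rw [h3]
  exact hre.add (h2.mul Pool.Agent.H340R2.LW.isAlgebraic_I)

theorem tr_of_exp {u : ℂ} (hu0 : u ≠ 0) (eu : IsAlgebraic ℚ (Complex.exp u)) :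
    Transcendental ℚ u := fun h =>
  Pool.Agent.H340R2.LW.transcendental_cexp u h hu0 eu

/-- the real part of a point of a circle of algebraic radius -/
theorem tr_re {u : ℂ} (hR : IsAlgebraic ℚ ((‖u‖ ^ 2 : ℝ) : ℂ)) (hu : Transcendental ℚ u) :
    Transcendental ℚ u.re := fun h => hu (alg_of_re hR (h.algebraMap (A := ℂ)))

/-- Two points of circles of algebraic radii with rational ratio of squares. -/
theorem circle_over {u v : ℂ} (hu0 : u ≠ 0) (hR : IsAlgebraic ℚ ((‖u‖ ^ 2 : ℝ) : ℂ))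
    (eu : IsAlgebraic ℚ (Complex.exp u)) (ev : IsAlgebraic ℚ (Complex.exp v))
    {q : ℚ} (hq : ‖v‖ ^ 2 = q * ‖u‖ ^ 2) (hv : Over u v) :
    (∃ r : ℚ, v = r * u) ∨ (∃ r : ℚ, v = r * (starRingEnd ℂ) u) :=
  pair (tr_re hR (tr_of_exp hu0 eu)) hu0 (over_re hR) (over_over (over_re hR) hv) eu ev hq

theorem circle_alg {u v : ℂ} (hu0 : u ≠ 0) (hR : IsAlgebraic ℚ ((‖u‖ ^ 2 : ℝ) : ℂ))
    (eu : IsAlgebraic ℚ (Complex.exp u)) (ev : IsAlgebraic ℚ (Complex.exp v))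
    {q : ℚ} (hq : ‖v‖ ^ 2 = q * ‖u‖ ^ 2) :
    AlgebraicIndependent ℚ ![u, v] ∨
    (∃ r : ℚ, v = r * u) ∨ (∃ r : ℚ, v = r * (starRingEnd ℂ) u) := by
  by_cases hv : Over u v
  · exact Or.inr (circle_over hu0 hR eu ev hq hv)
  · exact Or.inl (Pool.Agent.W242.GG.algInd_pair (tr_of_exp hu0 eu) hv)

/-- Powers of one number. -/
theorem powers {z : ℂ} (hz0 : z ≠ 0) {s : ℚ} (hs : ‖z‖ ^ 2 = s) {m n : ℤ} (hm : 0 < m)
    (hmn : m < n) (em : IsAlgebraic ℚ (Complex.exp (z ^ m)))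
    (en : IsAlgebraic ℚ (Complex.exp (z ^ n))) : False := by
  have hzn : 0 < ‖z‖ := norm_pos_iff.2 hz0
  have hs0 : (0 : ℝ) < s := by rw [← hs]; positivity
  have hs0' : (0 : ℚ) < s := by exact_mod_cast hs0
  have hm0 : z ^ m ≠ 0 := zpow_ne_zero m hz0
  have h0 : ‖z ^ m‖ ^ 2 = ((s ^ m : ℚ) : ℝ) := by
    rw [norm_zpow, ← zpow_natCast, zpow_comm, zpow_natCast, hs]; push_cast; rfl
  have h0n : ‖z ^ n‖ ^ 2 = ((s ^ n : ℚ) : ℝ) := by
    rw [norm_zpow, ← zpow_natCast, zpow_comm, zpow_natCast, hs]; push_cast; rfl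
  have hRm : IsAlgebraic ℚ ((‖z ^ m‖ ^ 2 : ℝ) : ℂ) := by
    rw [h0]
    have : (((s ^ m : ℚ) : ℝ) : ℂ) = ((s ^ m : ℚ) : ℂ) := by norm_cast
    rw [this]
    simpa using isAlgebraic_algebraMap (R := ℚ) (A := ℂ) (s ^ m)
  have hq : ‖z ^ n‖ ^ 2 = ((s ^ (n - m) : ℚ) : ℝ) * ‖z ^ m‖ ^ 2 := by
    rw [h0, h0n, ← Rat.cast_mul, ← zpow_add₀ hs0'.ne']
    congr 2; ring
  have hratz : ∀ (k : ℤ) (r : ℚ), k ≠ 0 → z ^ k = (r : ℂ) → False := by
    intro k r hk h
    have h1 : IsAlgebraic ℚ (z ^ k) := by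
      rw [h]; simpa using isAlgebraic_algebraMap (R := ℚ) (A := ℂ) r
    have h2 : IsAlgebraic ℚ z := by
      obtain ⟨j, hj | hj⟩ := Int.eq_nat_or_neg k
      · rw [hj, zpow_natCast] at h1
        exact IsAlgebraic.of_pow (by omega) h1
      · rw [hj, zpow_neg, zpow_natCast] at h1
        have h3 := h1.inv
        rw [inv_inv] at h3
        exact IsAlgebraic.of_pow (by omega) h3
    have h4 : IsAlgebraic ℚ (z ^ m) := by
      obtain ⟨j, rfl⟩ := Int.eq_ofNat_of_zero_le hm.le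
      rw [zpow_natCast]; exact h2.pow j
    exact tr_of_exp hm0 em h4
  have hdep : Over (z ^ m) (z ^ n) := by
    have h1 : Over (z ^ m) z := by
      obtain ⟨j, rfl⟩ := Int.eq_ofNat_of_zero_le hm.le
      have : Over (z ^ ((j : ℕ) : ℤ)) (z ^ j) := by
        rw [zpow_natCast]; exact over_self _
      exact IsAlgebraic.of_pow (by omega) this
    obtain ⟨j, rfl⟩ := Int.eq_ofNat_of_zero_le (hm.le.trans hmn.le)
    rw [zpow_natCast _ j]; exact h1.pow j
  rcases circle_over hm0 hRm em en hq hdep with ⟨r, hr⟩ | ⟨r, hr⟩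
  · refine hratz (n - m) r (by omega) ?_
    rw [zpow_sub₀ hz0, hr]
    field_simp
  · have h5 : (starRingEnd ℂ) (z ^ m) = ((s ^ m : ℚ) : ℂ) * z ^ (-m) := by
      have h6 : z ^ m * (starRingEnd ℂ) (z ^ m) = ((s ^ m : ℚ) : ℂ) := by
        rw [mul_conj_norm, h0]; norm_cast
      rw [zpow_neg, ← h6]
      field_simp
    refine hratz (n + m) (r * s ^ m) (by omega) ?_
    rw [zpow_add₀ hz0, hr, h5, zpow_neg]
    push_cast
    field_simp

end P426.TC
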