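import Pool.Agent.TH426.TC.More

/-!
# Numbers related to `π` by a rational conic; the circles of radii `π²` and `e`
-/

set_option autoImplicit false

namespace P426.TC

open Complex

theorem exp_re_alg {z : ℂ} (ez : IsAlgebraic ℚ (Complex.exp z)) :
    IsAlgebraic ℚ (Complex.exp (z.re : ℂ)) := by
  have h1 : IsAlgebraic ℚ (Complex.exp (z.re : ℂ) ^ 2) := by
    rw [← Complex.exp_nat_mul]
    have : ((2 : ℕ) : ℂ) * (z.re : ℂ) = z + (starRingEnd ℂ) z := by
      rw [Complex.add_conj]; push_cast; rfl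
    rw [this, Complex.exp_add, Complex.exp_conj]
    exact ez.mul (alg_conj ez)
  exact IsAlgebraic.of_pow (by norm_num) h1

theorem exp_im_alg {z : ℂ} (ez : IsAlgebraic ℚ (Complex.exp z)) :
    IsAlgebraic ℚ (Complex.exp (I * z.im)) := by
  have h1 : Complex.exp (I * z.im) = Complex.exp z * (Complex.exp (z.re : ℂ))⁻¹ := by
    rw [← Complex.exp_neg, ← Complex.exp_add]
    congr 1
    nth_rewrite 2 [← Complex.re_add_im z]
    ring
  rw [h1]
  exact ez.mul (exp_re_alg ez).inv

theorem over_rp {t : ℝ} {z : ℂ} (oz : Over t z) : Over t (z.re : ℂ) := by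
  have h1 : (z.re : ℂ) = ((1 / 2 : ℚ) : ℂ) * (z + (starRingEnd ℂ) z) := by
    rw [Complex.add_conj]; push_cast; ring
  rw [h1]
  exact (over_rat _ _).mul (oz.add (over_conj t oz))

theorem over_ip {t : ℝ} {z : ℂ} (oz : Over t z) : Over t (z.im : ℂ) := by
  have h1 : (z.im : ℂ) = (z - (z.re : ℂ)) * (-I) := by
    nth_rewrite 2 [← Complex.re_add_im z]
    ring_nf
    rw [Complex.I_sq]; ring
  rw [h1]
  exact (oz.sub (over_rp oz)).mul (over_I _).neg

theorem exp_pi_I_alg : IsAlgebraic ℚ (Complex.exp (I * Real.pi)) := by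
  rw [mul_comm, Complex.exp_pi_mul_I]
  exact isAlgebraic_one.neg

/-- conics related to `π` -/
theorem conic {z : ℂ} (oz : Over (Real.pi : ℂ) z) (hre : z.re ≠ 0) (a b c d e f : ℚ)
    (hcon : z.re ^ 2 + (a * z.im + b * Real.pi) ^ 2 =
      (c * z.im + d * Real.pi) * (e * z.im + f * Real.pi)) :
    Transcendental ℚ (Complex.exp z) := by
  intro ez
  have ere := exp_re_alg ez
  have eim := exp_im_alg ez
  have ore := over_rp oz
  have oim := over_ip oz
  have key : ∀ a b : ℚ, IsAlgebraic ℚ (Complex.exp (I * ((a * z.im + b * Real.pi : ℝ) : ℂ))) ∧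
      Over (Real.pi : ℂ) (I * ((a * z.im + b * Real.pi : ℝ) : ℂ)) := by
    intro a b
    constructor
    · have h1 : I * ((a * z.im + b * Real.pi : ℝ) : ℂ) =
          (a : ℂ) * (I * z.im) + (b : ℂ) * (I * Real.pi) := by
        push_cast; ring
      rw [h1, Complex.exp_add]
      exact (alg_exp_rat eim a).mul (alg_exp_rat exp_pi_I_alg b)
    · push_cast
      exact (over_I _).mul (((over_rat _ a).mul oim).add ((over_rat _ b).mul (over_self _)))
  have ha0 : ((z.re : ℂ) + I * ((a * z.im + b * Real.pi : ℝ) : ℂ)) ≠ 0 := by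
    intro h
    apply hre
    have := congrArg Complex.re h
    simpa using this
  have hdet : ((z.re : ℂ) + I * ((a * z.im + b * Real.pi : ℝ) : ℂ)) *
      ((z.re : ℂ) + I * (((-a : ℚ) * z.im + (-b : ℚ) * Real.pi : ℝ) : ℂ)) =
      (I * ((c * z.im + d * Real.pi : ℝ) : ℂ)) *
      (I * (((-e : ℚ) * z.im + (-f : ℚ) * Real.pi : ℝ) : ℂ)) := by
    have h1 : ((z.re ^ 2 + (a * z.im + b * Real.pi) ^ 2 : ℝ) : ℂ) =
      (((c * z.im + d * Real.pi) * (e * z.im + f * Real.pi) : ℝ) : ℂ) := by rw [hcon]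
    push_cast at h1 ⊢
    linear_combination h1 + (-(a * z.im + b * Real.pi : ℂ) ^ 2 +
      (c * z.im + d * Real.pi) * (e * z.im + f * Real.pi)) * Complex.I_sq
  have eA : IsAlgebraic ℚ (Complex.exp ((z.re : ℂ) + I * ((a * z.im + b * Real.pi : ℝ) : ℂ))) := by
    rw [Complex.exp_add]; exact ere.mul (key a b).1
  have eD : IsAlgebraic ℚ (Complex.exp
      ((z.re : ℂ) + I * (((-a : ℚ) * z.im + (-b : ℚ) * Real.pi : ℝ) : ℂ))) := by
    rw [Complex.exp_add]; exact ere.mul (key (-a) (-b)).1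
  have hfin : ∀ (r : ℚ) (x y : ℝ), I * (x : ℂ) = r * ((z.re : ℂ) + I * (y : ℂ)) → x = 0 := by
    intro r x y h
    have h1 := congrArg Complex.re h
    have h2 := congrArg Complex.im h
    have e1 : ((r : ℂ) * ((z.re : ℂ) + I * (y : ℂ))) =
        ((((r : ℝ) * z.re : ℝ) : ℂ)) + ((((r : ℝ) * y : ℝ)) : ℂ) * I := by
      push_cast; ring
    rw [e1] at h1 h2
    simp only [Complex.mul_re, Complex.I_re, Complex.ofReal_re, Complex.I_im, Complex.ofReal_im,
      Complex.add_re, Complex.mul_im, Complex.add_im] at h1 h2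
    have h3 : (r : ℝ) * z.re = 0 := by linarith
    have h4 : (r : ℝ) = 0 := by
      rcases mul_eq_zero.1 h3 with h | h
      · exact h
      · exact absurd h hre
    rw [h4] at h2
    linarith
  have hpos : 0 < z.re ^ 2 + (a * z.im + b * Real.pi) ^ 2 := by
    have := sq_nonneg (a * z.im + b * Real.pi)
    have : 0 < z.re ^ 2 := by positivity
    linarith
  rcases core Pool.Agent.H340R2.LW.transcendental_pi_complex ha0 hdet (ore.add (key a b).2)
    (key c d).2 (key (-e) (-f)).2 eA (key (-e) (-f)).1 (over_of_alg _ (key c d).1)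
    (over_of_alg _ eD) with ⟨r, hr⟩ | ⟨r, hr⟩
  · have h1 := hfin _ _ _ hr
    push_cast at h1
    have h2 : e * z.im + f * Real.pi = 0 := by linarith
    rw [hcon, h2, mul_zero] at hpos
    exact lt_irrefl _ hpos
  · have h1 := hfin _ _ _ hr
    rw [hcon, h1, zero_mul] at hpos
    exact lt_irrefl _ hpos

end P426.TC
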