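import Pool.Agent.TH426.TC.Pi

/-!
# Points of circles: transcendence degree at least two
-/

set_option autoImplicit false

namespace P426.TC

open Complex IntermediateField

/-- in a field of transcendence degree at most one every element is algebraic over each
transcendental element -/
theorem over_of_trdeg (K : IntermediateField ℚ ℂ) (hK : Algebra.trdeg ℚ K ≤ 1) {θ : ℂ}
    (hθK : θ ∈ K) (hθ : Transcendental ℚ θ) {x : ℂ} (hx : x ∈ K) : Over θ x := by
  have hθ' : Transcendental ℚ (⟨θ, hθK⟩ : K) := fun h => hθ (h.algebraMap (A := ℂ))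
  have h1 : AlgebraicIndependent ℚ (fun _ : Unit => (⟨θ, hθK⟩ : K)) := by
    rw [algebraicIndependent_unique_type_iff]
    exact hθ'
  have h2 : IsTranscendenceBasis ℚ (fun _ : Unit => (⟨θ, hθK⟩ : K)) :=
    h1.isTranscendenceBasis_of_lift_trdeg_le_of_finite (by simpa using hK)
  have h3 : Algebra.IsAlgebraic ℚ⟮(⟨θ, hθK⟩ : K)⟯ K := by
    have := h2.isAlgebraic_field
    rwa [Set.range_const] at this
  obtain ⟨p, hp0, hp⟩ := h3.isAlgebraic (⟨x, hx⟩ : K)
  have hmem : ∀ y : ℚ⟮(⟨θ, hθK⟩ : K)⟯, ((y : K) : ℂ) ∈ adjoin ℚ {θ} := by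
    rintro ⟨y, hy⟩
    show (y : ℂ) ∈ adjoin ℚ {θ}
    induction hy using adjoin_induction with
    | mem x hx =>
      rw [Set.mem_singleton_iff.1 hx]
      exact mem_adjoin_simple_self ℚ θ
    | algebraMap q =>
      have h1 : ((algebraMap ℚ K q : K) : ℂ) = (q : ℂ) := by simp
      rw [h1]
      exact (adjoin ℚ {θ}).algebraMap_mem q
    | add x y _ _ hx hy => exact add_mem hx hy
    | inv x _ hx => exact inv_mem hx
    | mul x y _ _ hx hy => exact mul_mem hx hy
  let f : ℚ⟮(⟨θ, hθK⟩ : K)⟯ →+* adjoin ℚ {θ} :=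
    { toFun := fun y => ⟨((y : K) : ℂ), hmem y⟩
      map_one' := rfl
      map_mul' := fun _ _ => rfl
      map_zero' := rfl
      map_add' := fun _ _ => rfl }
  refine ⟨p.map f, (Polynomial.map_ne_zero_iff f.injective).2 hp0, ?_⟩
  rw [Polynomial.aeval_def, Polynomial.eval₂_map]
  have h4 : (algebraMap (adjoin ℚ {θ}) ℂ).comp f =
      (algebraMap K ℂ).comp (algebraMap ℚ⟮(⟨θ, hθK⟩ : K)⟯ K) := rfl
  rw [h4]
  have h5 := Polynomial.hom_eval₂ p (algebraMap ℚ⟮(⟨θ, hθK⟩ : K)⟯ K) (algebraMap K ℂ) ⟨x, hx⟩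
  rw [← Polynomial.aeval_def, hp, map_zero] at h5
  exact h5.symm

/-- two points of circles with rational ratio of squared radii -/
theorem pair_trdeg {z w : ℂ} (hz0 : z ≠ 0)
    (ez : IsAlgebraic ℚ (Complex.exp z)) (ew : IsAlgebraic ℚ (Complex.exp w))
    {q : ℚ} (hq : ‖w‖ ^ 2 = q * ‖z‖ ^ 2) :
    (∃ r : ℚ, w = r * z) ∨ (∃ r : ℚ, w = r * (starRingEnd ℂ) z) ∨
      2 ≤ Algebra.trdeg ℚ (IntermediateField.adjoin ℚ
        {(z.re : ℂ), (z.im : ℂ), (w.re : ℂ), (w.im : ℂ)}) := by
  by_cases hK : Algebra.trdeg ℚ (IntermediateField.adjoin ℚ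
        {(z.re : ℂ), (z.im : ℂ), (w.re : ℂ), (w.im : ℂ)}) ≤ 1
  · set K := IntermediateField.adjoin ℚ {(z.re : ℂ), (z.im : ℂ), (w.re : ℂ), (w.im : ℂ)} with hKd
    have m1 : (z.re : ℂ) ∈ K := subset_adjoin ℚ _ (by simp)
    have m2 : (z.im : ℂ) ∈ K := subset_adjoin ℚ _ (by simp)
    have m3 : (w.re : ℂ) ∈ K := subset_adjoin ℚ _ (by simp)
    have m4 : (w.im : ℂ) ∈ K := subset_adjoin ℚ _ (by simp)
    have hz := tr_of_exp hz0 ez
    -- a real transcendental number `t` with `t ∈ K`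
    obtain ⟨t, htK, ht⟩ : ∃ t : ℝ, (t : ℂ) ∈ K ∧ Transcendental ℚ t := by
      by_contra hcon
      push Not at hcon
      have a1 := hcon z.re m1
      have a2 := hcon z.im m2
      rw [Transcendental, not_not] at a1 a2
      apply hz
      have h3 : z = (z.re : ℂ) + (z.im : ℂ) * I := (Complex.re_add_im z).symm
      rw [h3]
      exact (a1.algebraMap (A := ℂ)).add
        ((a2.algebraMap (A := ℂ)).mul Pool.Agent.H340R2.LW.isAlgebraic_I)
    have htc := trans_cast ht
    have o1 := over_of_trdeg K hK htK htc m1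
    have o2 := over_of_trdeg K hK htK htc m2
    have o3 := over_of_trdeg K hK htK htc m3
    have o4 := over_of_trdeg K hK htK htc m4
    have oz : Over (t : ℂ) z := by
      rw [← Complex.re_add_im z]
      exact o1.add (o2.mul (over_I _))
    have ow : Over (t : ℂ) w := by
      rw [← Complex.re_add_im w]
      exact o3.add (o4.mul (over_I _))
    rcases pair ht hz0 oz ow ez ew hq with h | h
    · exact Or.inl h
    · exact Or.inr (Or.inl h)
  · right; right
    push Not at hK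
    have h1 : Order.succ (1 : Cardinal) = 2 := by
      have h2 := Cardinal.succ_natCast 1
      rw [Nat.cast_one] at h2
      rw [h2]
      norm_num
    rw [← h1]
    exact Order.succ_le_of_lt hK

end P426.TC
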